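import Pool.Agent.H74R2.WT.Stmts

set_option autoImplicit false

open MeasureTheory Set

namespace H74R2.WT

namespace D1

theorem conn {C G : Set ℂ} (hC : IsPreconnected C) (h : ∀ z ∈ C, z ∉ frontier G) :
    C ⊆ G ∨ ∀ z ∈ C, z ∉ G := by
  have h1 : C ⊆ interior G ∨ C ⊆ (closure G)ᶜ := by
    refine hC.subset_or_subset isOpen_interior isClosed_closure.isOpen_compl ?_ ?_
    · rw [Set.disjoint_compl_right_iff_subset]
      exact interior_subset.trans subset_closure
    · intro z hz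
      by_cases h1 : z ∈ interior G
      · exact Or.inl h1
      · right
        intro h2
        exact h z hz ⟨h2, h1⟩
  rcases h1 with h1 | h1
  · exact Or.inl (h1.trans interior_subset)
  · exact Or.inr fun z hz hzG => h1 hz (subset_closure hzG)

theorem pos_comb {a b p q : ℝ} (ha : 0 ≤ a) (hb : 0 ≤ b) (hab : a + b = 1) (hp : 0 < p)
    (hq : 0 < q) : 0 < a * p + b * q := by
  rcases eq_or_lt_of_le ha with h | h
  · have : b = 1 := by linarith
    rw [← h, this]; linarith
  · have := mul_pos h hp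
    have := mul_nonneg hb hq.le
    linarith

/-- half planes -/
theorem half (c k l : ℝ) : Convex ℝ {z : ℂ | 0 < c + k * z.re + l * z.im} := by
  intro z hz w hw a b ha hb hab
  simp only [mem_ofPred_eq] at hz hw ⊢
  have h := pos_comb ha hb hab hz hw
  have e1 : (a • z + b • w).re = a * z.re + b * w.re := by simp
  have e2 : (a • z + b • w).im = a * z.im + b * w.im := by simp
  rw [e1, e2]
  have : c + k * (a * z.re + b * w.re) + l * (a * z.im + b * w.im) =
      a * (c + k * z.re + l * z.im) + b * (c + k * w.re + l * w.im) + (1 - (a + b)) * c := by ring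
  rw [this, hab]
  linarith

variable {K : Subfield ℝ}

/-- value of a line at height `y` -/
def val (f : K × ℝ) (y : ℝ) : ℝ := f.2 + (f.1 : ℝ) * y

def cell (y0 y1 : ℝ) (p : (K × ℝ) × (K × ℝ)) : Set ℂ :=
  {z | (y0 < z.im ∧ z.im < y1) ∧ (val p.1 z.im < z.re ∧ z.re < val p.2 z.im)}

theorem cell_convex (y0 y1 : ℝ) (p : (K × ℝ) × (K × ℝ)) : Convex ℝ (cell y0 y1 p) := by
  have h : cell y0 y1 p = ({z : ℂ | 0 < -y0 + 0 * z.re + 1 * z.im} ∩
      {z : ℂ | 0 < y1 + 0 * z.re + (-1) * z.im}) ∩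
      ({z : ℂ | 0 < -p.1.2 + 1 * z.re + (-(p.1.1 : ℝ)) * z.im} ∩
        {z : ℂ | 0 < p.2.2 + (-1) * z.re + (p.2.1 : ℝ) * z.im}) := by
    ext z
    simp only [cell, val, mem_ofPred_eq, mem_inter_iff]
    constructor
    · rintro ⟨⟨h1, h2⟩, h3, h4⟩
      refine ⟨⟨?_, ?_⟩, ?_, ?_⟩ <;> linarith
    · rintro ⟨⟨h1, h2⟩, h3, h4⟩
      refine ⟨⟨?_, ?_⟩, ?_, ?_⟩ <;> linarith
  rw [h]
  exact ((half _ _ _).inter (half _ _ _)).inter ((half _ _ _).inter (half _ _ _))

def left (y0 y1 : ℝ) (F : Finset (K × ℝ)) : Set ℂ :=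
  {z | (y0 < z.im ∧ z.im < y1) ∧ ∀ f ∈ F, z.re < val f z.im}

def right (y0 y1 : ℝ) (F : Finset (K × ℝ)) : Set ℂ :=
  {z | (y0 < z.im ∧ z.im < y1) ∧ ∀ f ∈ F, val f z.im < z.re}

theorem left_convex (y0 y1 : ℝ) (F : Finset (K × ℝ)) : Convex ℝ (left y0 y1 F) := by
  have h : left y0 y1 F = ({z : ℂ | 0 < -y0 + 0 * z.re + 1 * z.im} ∩
      {z : ℂ | 0 < y1 + 0 * z.re + (-1) * z.im}) ∩
      ⋂ f ∈ F, {z : ℂ | 0 < f.2 + (-1) * z.re + (f.1 : ℝ) * z.im} := by
    ext z
    simp only [left, val, mem_ofPred_eq, mem_inter_iff, mem_iInter]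
    constructor
    · rintro ⟨⟨h1, h2⟩, h3⟩
      refine ⟨⟨by linarith, by linarith⟩, fun f hf => ?_⟩
      have := h3 f hf
      linarith
    · rintro ⟨⟨h1, h2⟩, h3⟩
      refine ⟨⟨by linarith, by linarith⟩, fun f hf => ?_⟩
      have := h3 f hf
      linarith
  rw [h]
  exact ((half _ _ _).inter (half _ _ _)).inter (convex_iInter₂ fun f _ => half _ _ _)

theorem right_convex (y0 y1 : ℝ) (F : Finset (K × ℝ)) : Convex ℝ (right y0 y1 F) := by
  have h : right y0 y1 F = ({z : ℂ | 0 < -y0 + 0 * z.re + 1 * z.im} ∩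
      {z : ℂ | 0 < y1 + 0 * z.re + (-1) * z.im}) ∩
      ⋂ f ∈ F, {z : ℂ | 0 < -f.2 + 1 * z.re + (-(f.1 : ℝ)) * z.im} := by
    ext z
    simp only [right, val, mem_ofPred_eq, mem_inter_iff, mem_iInter]
    constructor
    · rintro ⟨⟨h1, h2⟩, h3⟩
      refine ⟨⟨by linarith, by linarith⟩, fun f hf => ?_⟩
      have := h3 f hf
      linarith
    · rintro ⟨⟨h1, h2⟩, h3⟩
      refine ⟨⟨by linarith, by linarith⟩, fun f hf => ?_⟩
      have := h3 f hf
      linarith
  rw [h]
  exact ((half _ _ _).inter (half _ _ _)).inter (convex_iInter₂ fun f _ => half _ _ _)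

/-- the order of the lines does not depend on the height -/
theorem order {y0 y1 : ℝ} {f g : K × ℝ}
    (hne : ∀ y ∈ Ioo y0 y1, val f y ≠ val g y) {y y' : ℝ} (hy : y ∈ Ioo y0 y1)
    (hy' : y' ∈ Ioo y0 y1) (h : val f y < val g y) : val f y' < val g y' := by
  by_contra hcon
  push Not at hcon
  have hlt : val g y' < val f y' := lt_of_le_of_ne hcon (hne y' hy').symm
  have hc : Continuous fun s : ℝ => val g s - val f s := by
    unfold val; fun_prop
  have h0 : (0 : ℝ) ∈ Icc (val g y' - val f y') (val g y - val f y) :=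
    ⟨by linarith, by linarith⟩
  obtain ⟨s, hs, hs0⟩ := isPreconnected_Ioo.intermediate_value hy' hy hc.continuousOn h0
  exact hne s hs (by simp only at hs0; linarith)

open Classical in
theorem main : T_D1 := by
  intro K y0 y1 h01 F G hG hcross hfr
  have hcross' : ∀ f ∈ F, ∀ g ∈ F, f ≠ g → ∀ y ∈ Ioo y0 y1, val f y ≠ val g y := hcross
  have hord : ∀ f ∈ F, ∀ g ∈ F, ∀ y ∈ Ioo y0 y1, ∀ y' ∈ Ioo y0 y1,
      val f y < val g y → val f y' < val g y' := by
    intro f hf g hg y hy y' hy' h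
    have hne : f ≠ g := by rintro rfl; exact lt_irrefl _ h
    exact order (hcross' f hf g hg hne) hy hy' h
  -- adjacent pairs
  set adj : (K × ℝ) × (K × ℝ) → Prop := fun p => ∀ y ∈ Ioo y0 y1, val p.1 y < val p.2 y ∧
    ∀ h ∈ F, ¬ (val p.1 y < val h y ∧ val h y < val p.2 y) with hadj
  set P : Finset ((K × ℝ) × (K × ℝ)) :=
    (F ×ˢ F).filter (fun p => adj p ∧ cell y0 y1 p ⊆ G) with hP
  set mk : (K × ℝ) × (K × ℝ) → HT K := fun p =>
    if h : ∀ y ∈ Ioo y0 y1, val p.1 y < val p.2 y then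
      { a := y0, b := y1, c1 := p.1.2, c2 := p.2.2, k1 := p.1.1, k2 := p.2.1, hab := h01,
        hlt := h }
    else { a := y0, b := y1, c1 := 0, c2 := 1, k1 := 0, k2 := 0, hab := h01,
           hlt := by intro y _; simp } with hmk
  have hmkab : ∀ p, (mk p).a = y0 ∧ (mk p).b = y1 := by
    intro p
    simp only [hmk]
    split_ifs <;> exact ⟨rfl, rfl⟩
  have hmkset : ∀ p ∈ P, (mk p).set = cell y0 y1 p := by
    intro p hp
    have h1 : adj p := (Finset.mem_filter.1 hp).2.1
    have h2 : ∀ y ∈ Ioo y0 y1, val p.1 y < val p.2 y := fun y hy => (h1 y hy).1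
    simp only [hmk]
    rw [dif_pos h2]
    rfl
  refine ⟨P.toList.map mk, ?_, ?_⟩
  · intro t ht
    obtain ⟨p, -, rfl⟩ := List.mem_map.1 ht
    exact hmkab p
  intro y hy
  refine (F.image (fun f => val f y)).finite_toSet.subset ?_
  intro x hx
  by_contra hxF
  apply hx
  have hxF' : ∀ f ∈ F, val f y ≠ x := by
    intro f hf h
    exact hxF (by simpa using ⟨f.1, f.1.2, f.2, by simpa using hf, h⟩)
  rw [List.map_map, Finset.sum_map_toList]
  have hsum : ∑ p ∈ P, ((fun t : HT K => ind t.set ⟨x, y⟩) ∘ mk) p =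
      ∑ p ∈ P, ind (cell y0 y1 p) ⟨x, y⟩ := by
    refine Finset.sum_congr rfl fun p hp => ?_
    simp only [Function.comp]
    rw [hmkset p hp]
  rw [hsum]
  by_cases hz : (⟨x, y⟩ : ℂ) ∈ G
  swap
  · have h1 : ind G ⟨x, y⟩ = 0 := by simp [ind, hz]
    rw [h1]
    symm
    refine Finset.sum_eq_zero fun p hp => ?_
    have h2 : (⟨x, y⟩ : ℂ) ∉ cell y0 y1 p := fun h => hz ((Finset.mem_filter.1 hp).2.2 h)
    simp [ind, h2]
  -- the point is in `G`
  have hz1 : ind G ⟨x, y⟩ = 1 := by simp [ind, hz]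
  rw [hz1]
  symm
  -- lines to the left
  obtain ⟨R, hR⟩ := hG.exists_norm_le
  have hLne : (F.filter (fun f => val f y < x)).Nonempty := by
    by_contra hcon
    rw [Finset.not_nonempty_iff_eq_empty] at hcon
    have hall : ∀ f ∈ F, x < val f y := by
      intro f hf
      have h1 : ¬ val f y < x := by
        intro h
        have : f ∈ F.filter (fun f => val f y < x) := Finset.mem_filter.2 ⟨hf, h⟩
        rw [hcon] at this
        exact absurd this (Finset.notMem_empty _)
      exact lt_of_le_of_ne (not_lt.1 h1) (hxF' f hf).symm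
    have hmem : ∀ n : ℕ, (⟨x - n, y⟩ : ℂ) ∈ left y0 y1 F := by
      intro n
      refine ⟨hy, fun f hf => ?_⟩
      have := hall f hf
      have hn : (0 : ℝ) ≤ n := Nat.cast_nonneg n
      show x - n < val f y
      linarith
    rcases conn (left_convex y0 y1 F).isPreconnected (G := G) (by
      intro z hz hzf
      obtain ⟨f, hf, hzre⟩ := hfr z hzf hz.1
      exact absurd hzre (ne_of_lt (hz.2 f hf))) with h | h
    · obtain ⟨n, hn⟩ := exists_nat_gt (R + |x|)
      have h1 := hR _ (h (hmem n))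
      have h2 := Complex.abs_re_le_norm (⟨x - n, y⟩ : ℂ)
      have h3 : |x - n| ≤ R := h2.trans h1
      have h4 := abs_le.1 h3
      have h5 := le_abs_self x
      have h6 := neg_abs_le x
      linarith [h4.1]
    · exact h _ (by simpa using hmem 0) hz
  have hRne : (F.filter (fun f => x < val f y)).Nonempty := by
    by_contra hcon
    rw [Finset.not_nonempty_iff_eq_empty] at hcon
    have hall : ∀ f ∈ F, val f y < x := by
      intro f hf
      have h1 : ¬ x < val f y := by
        intro h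
        have : f ∈ F.filter (fun f => x < val f y) := Finset.mem_filter.2 ⟨hf, h⟩
        rw [hcon] at this
        exact absurd this (Finset.notMem_empty _)
      exact lt_of_le_of_ne (not_lt.1 h1) (hxF' f hf)
    have hmem : ∀ n : ℕ, (⟨x + n, y⟩ : ℂ) ∈ right y0 y1 F := by
      intro n
      refine ⟨hy, fun f hf => ?_⟩
      have := hall f hf
      have hn : (0 : ℝ) ≤ n := Nat.cast_nonneg n
      show val f y < x + n
      linarith
    rcases conn (right_convex y0 y1 F).isPreconnected (G := G) (by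
      intro z hz hzf
      obtain ⟨f, hf, hzre⟩ := hfr z hzf hz.1
      exact absurd hzre (ne_of_gt (hz.2 f hf))) with h | h
    · obtain ⟨n, hn⟩ := exists_nat_gt (R + |x|)
      have h1 := hR _ (h (hmem n))
      have h2 := Complex.abs_re_le_norm (⟨x + n, y⟩ : ℂ)
      have h3 : |x + n| ≤ R := h2.trans h1
      have h4 := abs_le.1 h3
      have h5 := le_abs_self x
      have h6 := neg_abs_le x
      linarith [h4.2]
    · exact h _ (by simpa using hmem 0) hz
  obtain ⟨f, hf, hfmax⟩ := Finset.exists_max_image _ (fun f => val f y) hLne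
  obtain ⟨g, hg, hgmin⟩ := Finset.exists_min_image _ (fun f => val f y) hRne
  rw [Finset.mem_filter] at hf hg
  have hadjy : ∀ h ∈ F, ¬ (val f y < val h y ∧ val h y < val g y) := by
    rintro h hh ⟨h1, h2⟩
    rcases lt_or_gt_of_ne (hxF' h hh) with h3 | h3
    · have := hfmax h (Finset.mem_filter.2 ⟨hh, h3⟩)
      linarith
    · have := hgmin h (Finset.mem_filter.2 ⟨hh, h3⟩)
      linarith
  have hadjfg : adj (f, g) := by
    intro y' hy'
    refine ⟨hord f hf.1 g hg.1 y hy y' hy' (hf.2.trans hg.2), ?_⟩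
    rintro h hh ⟨h1, h2⟩
    exact hadjy h hh ⟨hord f hf.1 h hh y' hy' y hy h1, hord h hh g hg.1 y' hy' y hy h2⟩
  have hzc : (⟨x, y⟩ : ℂ) ∈ cell y0 y1 (f, g) := ⟨hy, hf.2, hg.2⟩
  have hcell : cell y0 y1 (f, g) ⊆ G := by
    rcases conn (cell_convex y0 y1 (f, g)).isPreconnected (G := G) (by
      intro z hz hzf
      obtain ⟨h, hh, hzre⟩ := hfr z hzf hz.1
      have h1 := hz.2.1
      have h2 := hz.2.2
      have h3 : z.re = val h z.im := hzre
      rw [h3] at h1 h2
      exact (hadjfg z.im hz.1).2 h hh ⟨h1, h2⟩) with h | h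
    · exact h
    · exact absurd hz (h _ hzc)
  have hfgP : (f, g) ∈ P := by
    rw [hP, Finset.mem_filter, Finset.mem_product]
    exact ⟨⟨hf.1, hg.1⟩, hadjfg, hcell⟩
  rw [Finset.sum_eq_single (f, g)]
  · simp [ind, hzc]
  · rintro ⟨f', g'⟩ hp' hne
    rw [hP, Finset.mem_filter, Finset.mem_product] at hp'
    obtain ⟨⟨hf', hg'⟩, hadj', -⟩ := hp'
    have hnot : (⟨x, y⟩ : ℂ) ∉ cell y0 y1 (f', g') := by
      intro hc
      have c1 : val f' y < x := hc.2.1
      have c2 : x < val g' y := hc.2.2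
      apply hne
      have e1 : f' = f := by
        by_contra hff
        have hne1 := hcross' f' hf' f hf.1 hff y hy
        have hle := hfmax f' (Finset.mem_filter.2 ⟨hf', c1⟩)
        exact (hadj' y hy).2 f hf.1 ⟨lt_of_le_of_ne hle hne1, hf.2.trans c2⟩
      have e2 : g' = g := by
        by_contra hgg
        have hne1 := hcross' g' hg' g hg.1 hgg y hy
        have hle := hgmin g' (Finset.mem_filter.2 ⟨hg', c2⟩)
        exact (hadj' y hy).2 g hg.1 ⟨c1.trans hg.2, lt_of_le_of_ne hle hne1.symm⟩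
      rw [e1, e2]
    simp [ind, hnot]
  · intro h
    exact absurd hfgP h

end D1

theorem t_D1 : T_D1 := D1.main

end H74R2.WT
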